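import Pool.Agent.U798.GP.Spec

/-!
Project GQ (helper798), package SMS: the sum of the reciprocals of the integers composed of the
prime factors of `B` converges.
-/

set_option autoImplicit false

namespace Pool.Agent.U750.GP

open Pool.Agent.U798.GP

theorem t_SMS : Pool.Agent.U798.GP.S_SMS := by
  intro B hB
  have h1 : Sm B = Nat.factoredNumbers B.primeFactors := by
    ext s
    unfold Sm Nat.factoredNumbers
    simp only [Set.mem_setOf_eq, Nat.mem_primeFactors]
    constructor
    · rintro ⟨hs, h⟩
      refine ⟨by omega, fun p hp => ?_⟩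
      have hp1 := Nat.prime_of_mem_primeFactorsList hp
      have hp2 := Nat.dvd_of_mem_primeFactorsList hp
      exact ⟨hp1, h p hp1 hp2, by omega⟩
    · rintro ⟨hs, h⟩
      refine ⟨by omega, fun l hl hls => ?_⟩
      exact (h l ((Nat.mem_primeFactorsList hs).2 ⟨hl, hls⟩)).2.1
  have h2 := (EulerProduct.summable_and_hasSum_factoredNumbers_prod_filter_prime_tsum
    (f := fun n : ℕ => (1 : ℝ) / (n : ℝ)) (by simp) (by
      intro m n _
      push_cast
      rw [div_mul_div_comm, one_mul]) (by
      intro p hp
      have hp1 : (1 : ℝ) < p := by exact_mod_cast hp.one_lt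
      have h3 : (fun n : ℕ => ‖(1 : ℝ) / ((p ^ n : ℕ) : ℝ)‖) = fun n : ℕ => (1 / (p : ℝ)) ^ n := by
        funext n
        rw [Real.norm_of_nonneg (by positivity)]
        push_cast
        rw [one_div_pow]
      rw [h3]
      exact summable_geometric_of_lt_one (by positivity) ((div_lt_one (by linarith)).2 hp1))
    B.primeFactors).1
  rw [h1]
  refine h2.congr fun s => ?_
  rw [Real.norm_of_nonneg (by positivity)]

end Pool.Agent.U750.GP
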